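import Pool.Agent.R311.BS.WF

set_option autoImplicit false

/-!
# MP_112ba8_nt: lower bounds of the conjectured order for the moments of zeta inside every Bohr set

For an integer `q ≥ 2`, finitely many real numbers `α_1, …, α_J` and `δ > 0` there are `c, η > 0` such that for all
large `T`, all `H` with `T^(1-η) ≤ H ≤ T` and all real `t₀` the integral of `|ζ(1/2 + it)|^q` over those `t` in
`[T, T + H]` for which all the numbers `α_j (t - t₀)` are within `δ` of integers is at least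
`c H (log T)^(q²/4)`.
-/

namespace Pool.Agent.Results.MP_112ba8_nt.BohrSets

open Filter MeasureTheory

theorem result : ∀ (q J : ℕ) (α : Fin J → ℝ) (δ : ℝ), 2 ≤ q → 0 < δ →
    ∃ c η : ℝ, 0 < c ∧ 0 < η ∧ ∀ᶠ T : ℝ in atTop, ∀ H : ℝ, T ^ (1 - η) ≤ H → H ≤ T → ∀ t₀ : ℝ,
      c * H * Real.log T ^ ((q:ℝ) ^ 2 / 4) ≤
        ∫ t in {t : ℝ | t ∈ Set.Icc T (T + H) ∧ ∀ j, |α j * (t - t₀) - round (α j * (t - t₀))| < δ},
          ‖riemannZeta (1 / 2 + t * Complex.I)‖ ^ q := by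
  intro q J α δ hq hδ
  obtain ⟨c, hc, η, hη, h⟩ := Pool.Agent.R311.BS.main q hq α δ hδ
  exact ⟨c, η, hc, hη, h⟩

end Pool.Agent.Results.MP_112ba8_nt.BohrSets
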