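import Pool.Agent.R313.SH.Off

set_option autoImplicit false

/-!
# MP_112ba8_nt: the local landscape of zeta under the moment measures of every order, near the critical line

Let `δ(T) → 0`, `δ(T) log T → ∞`, `c ≥ 0`, let `S` be a countable set of reals and `B` a countable set of positive
reals (for instance all positive integers). There are sets `E(T) ⊆ [0, T]` of measure `o(δ^(4+4c) T)`, at every point
`t` of which `|ζ(1/2 + δ + i(t + a δ))| > δ^(-2-c)` for some `a ∈ S ∪ {0}`, such that for every `k ∈ B` with `k ≤ 2` or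
`k ≥ 2 + 2c` and all `a_1, ..., a_n ∈ S`
`(2δ)^(k²) (1/T) ∫_{[0,T] \ E(T)} |ζ(1/2 + δ + it)|^(2k) F(Y_t) dt`, where
`Y_t = (log |ζ(1/2 + δ + i(t + a_j δ))| - log |ζ(1/2 + δ + it)|)_j`, converges to `a(k) ∫ F dρ` for the normal law `ρ`
with means `-(k/2) log (1 + a_j²/4)` and covariances `(log (1 + a_i²/4) + log (1 + a_j²/4) - log (1 + (a_i-a_j)²/4)) / 4`
and for every continuous `F` with `|F(y)| ≤ A (1 + ∑_j exp(2 k y_j))`.
For an integer `k ≥ 3` one may take `c = (k-2)/2`; then the sets have measure `o(δ^(2k) T)`.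
-/

open Filter Topology MeasureTheory ProbabilityTheory

namespace Pool.Agent.Results.MP_112ba8_nt.LandscapeAllOrders

/-- the arithmetic factor of the moment conjecture for `|ζ|^(2k)` -/
noncomputable def ak (k : ℝ) : ℝ :=
  ∏' p : Nat.Primes, ((1 - 1 / (p : ℝ)) ^ (k ^ 2) *
    ∑' m : ℕ, (Real.Gamma (k + m) / (Real.Gamma k * (m.factorial : ℝ))) ^ 2 / (p : ℝ) ^ m)

/-- the covariance at `a, b` -/
noncomputable def cov (a b : ℝ) : ℝ :=
  (Real.log (1 + (a / 2) ^ 2) + Real.log (1 + (b / 2) ^ 2) - Real.log (1 + ((a - b) / 2) ^ 2)) / 4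

/-- the differences of the logarithms of the absolute values of zeta -/
noncomputable def landscape {n : ℕ} (δ : ℝ) (a : Fin n → ℝ) (t : ℝ) : Fin n → ℝ := fun j =>
  Real.log ‖riemannZeta (1 / 2 + δ + Complex.I * ((t + a j * δ : ℝ) : ℂ))‖ -
    Real.log ‖riemannZeta (1 / 2 + δ + Complex.I * (t : ℂ))‖

theorem result (δ : ℝ → ℝ) (hδ : Tendsto δ atTop (𝓝 0)) (hδL : Tendsto (fun T : ℝ => δ T * Real.log T) atTop atTop)
    (c : ℝ) (hc : 0 ≤ c) (S B : Set ℝ) (hS : S.Countable) (hB : B.Countable) (hB0 : ∀ k ∈ B, 0 < k) :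
    ∃ E : ℝ → Set ℝ, (∀ T, MeasurableSet (E T) ∧ ∀ t ∈ E T, 0 ≤ t ∧ t ≤ T ∧
        ∃ a ∈ insert 0 S, (δ T) ^ (-(2 + c)) < ‖riemannZeta (1 / 2 + δ T + Complex.I * ((t + a * δ T : ℝ) : ℂ))‖) ∧
      Tendsto (fun T => (volume (E T)).toReal / (T * (δ T) ^ (4 + 4 * c))) atTop (𝓝 0) ∧
      ∀ k ∈ B, (k ≤ 2 ∨ 2 + 2 * c ≤ k) → 0 < ak k ∧ ∀ (n : ℕ) (a : Fin n → ℝ), (∀ j, a j ∈ S) →
        ∃ ρ : Measure (Fin n → ℝ), IsProbabilityMeasure ρ ∧
          (∀ v : Fin n → ℝ, 0 ≤ ∑ i, ∑ j, v i * v j * cov (a i) (a j) ∧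
            ρ.map (fun y => ∑ j, v j * y j) = gaussianReal (∑ j, v j * (-(k / 2) * Real.log (1 + (a j / 2) ^ 2)))
              (∑ i, ∑ j, v i * v j * cov (a i) (a j)).toNNReal) ∧
          ∀ (F : (Fin n → ℝ) → ℝ) (A : ℝ), Continuous F → (∀ y, |F y| ≤ A * (1 + ∑ j, Real.exp (2 * k * y j))) →
            Tendsto (fun T : ℝ => (2 * δ T) ^ (k ^ 2) * (1 / T * ∫ t in Set.Icc 0 T \ E T,
              ‖riemannZeta (1 / 2 + δ T + Complex.I * (t : ℂ))‖ ^ (2 * k) * F (landscape (δ T) a t))) atTop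
              (𝓝 (ak k * ∫ y, F y ∂ρ)) := by
  have e1 : ∀ k : ℝ, 0 < k → ∀ m : ℕ, Real.Gamma (k + m) / (Real.Gamma k * (m.factorial : ℝ)) = Pool.Agent.H306R2.lc k m := by
    intro k hk m
    have hG : Real.Gamma k ≠ 0 := (Real.Gamma_pos_of_pos hk).ne'
    induction m with
    | zero =>
      unfold Pool.Agent.H306R2.lc
      simp [hG]
    | succ m ih =>
      have h1 : Pool.Agent.H306R2.lc k (m + 1) = Pool.Agent.H306R2.lc k m * ((k + m) / ((m : ℝ) + 1)) := by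
        unfold Pool.Agent.H306R2.lc
        rw [Finset.prod_range_succ]
      have hkm : k + (m : ℝ) ≠ 0 := by positivity
      have h2 : Real.Gamma (k + ((m + 1 : ℕ) : ℝ)) = (k + m) * Real.Gamma (k + m) := by
        rw [← Real.Gamma_add_one hkm]
        congr 1
        push_cast
        ring
      have hf : (m.factorial : ℝ) ≠ 0 := by positivity
      rw [h1, ← ih, h2, Nat.factorial_succ]
      push_cast
      field_simp
  have e3 : ∀ k : ℝ, 0 < k → ak k = Pool.Agent.H306R2.aF k := by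
    intro k hk
    unfold ak Pool.Agent.H306R2.aF
    refine tprod_congr fun p => ?_
    simp_rw [e1 k hk, one_div, inv_pow, div_eq_mul_inv]
  have e4 : ∀ (T t x : ℝ), (1 / 2 + δ T + ((t + x * δ T : ℝ) : ℂ) * Complex.I : ℂ) =
    1 / 2 + δ T + Complex.I * ((t + x * δ T : ℝ) : ℂ) := fun T t x => by ring
  have e5 : ∀ T t : ℝ, Pool.Agent.Y753.SHR.za (δ T) 0 t = ‖riemannZeta (1 / 2 + δ T + Complex.I * (t : ℂ))‖ := by
    intro T t
    unfold Pool.Agent.Y753.SHR.za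
    congr 2
    push_cast
    ring
  obtain ⟨E, hE, hvol, hm⟩ := Pool.Agent.R313.SH.land_off_grow hδ hδL hc (S := S) (B := (fun k : ℝ => 2 * k) '' B) hS
    (hB.image _) (by
      rintro _ ⟨k, hk, rfl⟩
      have := hB0 k hk
      simp only
      linarith)
  refine ⟨E, fun T => ⟨(hE T).1, fun t ht => ⟨((hE T).2.1 ht).1, ((hE T).2.1 ht).2, ?_⟩⟩, hvol, fun k hk hcase => ?_⟩
  · obtain ⟨a, ha, h1⟩ := (hE T).2.2 t ht
    refine ⟨a, ha, ?_⟩
    unfold Pool.Agent.Y753.SHR.za at h1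
    rwa [e4] at h1
  have hk0 := hB0 k hk
  rw [e3 _ hk0]
  refine ⟨Pool.Agent.H306R2.aF_pos hk0, fun n a ha => ?_⟩
  obtain ⟨ρ, hρ, hF⟩ := hm (2 * k) ⟨k, hk, rfl⟩ (by
    rcases hcase with h | h
    · left; linarith
    · right; linarith) n a ha
  refine ⟨(ρ : Measure (Fin n → ℝ)), inferInstance, fun v => ?_, fun F A hFc hFA => ?_⟩
  · obtain ⟨g1, g2⟩ := hρ v
    refine ⟨g1, ?_⟩
    have e7 : ∑ j, v j * (-(k / 2) * Real.log (1 + (a j / 2) ^ 2)) = Pool.Agent.Y753.SHL.lf v (Pool.Agent.Y753.SHL.mL (2 * k) a) := by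
      unfold Pool.Agent.Y753.SHL.lf Pool.Agent.Y753.SHL.mL Pool.Agent.Y753.SHL.Lg
      refine Finset.sum_congr rfl fun j _ => ?_
      ring
    rw [e7]
    exact g2
  · have h1 := hF F A hFc hFA
    have e8 : 2 * k / 2 = k := by ring
    rw [e8] at h1
    refine h1.congr fun T => ?_
    have e9 : ∀ t : ℝ, Pool.Agent.Y753.SHL.Yl (δ T) a t = landscape (δ T) a t := by
      intro t
      unfold Pool.Agent.Y753.SHL.Yl landscape
      funext j
      rw [e5]
      unfold Pool.Agent.Y753.SHR.za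
      rw [e4]
    simp_rw [e9, e5]
    ring

end Pool.Agent.Results.MP_112ba8_nt.LandscapeAllOrders
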