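import Pool.Agent.R313.Trim
import Pool.Agent.Results.MP_112ba8_nt.LocalLawAndMoments

set_option autoImplicit false

/-!
# MP_112ba8_nt: the lower bound of the conjectured order for the moments survives the removal of any small set

Let `0 < κ ≤ B` and `K ≥ 0`. There is `c > 0` such that for all `0 ≤ α < 1`, all large `T`, all `H` with
`T / (log T)^α ≤ H ≤ T`, all real `k` with `κ ≤ k ≤ B` and every measurable set `A` that misses at most the measure
`H (log T)^(-k²) exp (K √(log log T))` of `[T, T + H]`, the integral of `|ζ(1/2 + it)|^(2k)` over the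
`t ∈ A ∩ [T, T + H]` with `|ζ(1/2 + it)| ≤ (log T)^k exp (-K √(log log T))` is at least `c H (log T)^(k²)`.
-/

namespace Pool.Agent.Results.MP_112ba8_nt.TrimmedMoments

open Filter MeasureTheory

theorem result : ∀ κ B K : ℝ, 0 < κ → κ ≤ B → 0 ≤ K → ∃ c : ℝ, 0 < c ∧
    ∀ α : ℝ, 0 ≤ α → α < 1 → ∀ᶠ T : ℝ in atTop, ∀ H : ℝ, T / Real.log T ^ α ≤ H → H ≤ T →
      ∀ k : ℝ, κ ≤ k → k ≤ B → ∀ A : Set ℝ, MeasurableSet A →
        volume.real (Set.Icc T (T + H) \ A) ≤
          H * Real.log T ^ (-k ^ 2) * Real.exp (K * Real.sqrt (Real.log (Real.log T))) →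
        c * H * Real.log T ^ (k ^ 2) ≤
          ∫ t in A ∩ Set.Icc T (T + H) ∩ {t : ℝ | ‖riemannZeta (1 / 2 + t * Complex.I)‖ ≤
              Real.log T ^ k * Real.exp (-(K * Real.sqrt (Real.log (Real.log T))))},
            ‖riemannZeta (1 / 2 + t * Complex.I)‖ ^ (2 * k) := by
  intro κ B K hκ hκB hK
  obtain ⟨E, c, C, W, δ, mE, hc, -, hW, -, -, -, h⟩ :=
    Pool.Agent.Results.MP_112ba8_nt.LocalLawAndMoments.result B (1 / 2) 1 (by linarith)
      (by norm_num) (by norm_num)
  obtain ⟨y, hy⟩ : ∃ y : ℝ, y = K / (2 * κ) + K + 1 := ⟨_, rfl⟩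
  refine ⟨c / 2 * Real.exp (-(2 * B * W)) * Real.exp (-(y + 1) ^ 2) / (2 * (2 * W + 1)), by positivity,
    fun α h0 h1 => ?_⟩
  have hL : Tendsto (fun T : ℝ => Real.sqrt (Real.log (Real.log T))) atTop atTop :=
    Real.tendsto_sqrt_atTop.comp (Real.tendsto_log_atTop.comp Real.tendsto_log_atTop)
  have e3 : ∀ᶠ s : ℝ in atTop,
      2 * s * Real.exp ((y + 1) ^ 2) ≤ c * Real.exp (2 * κ * s) := by
    have h2 : Tendsto (fun s : ℝ => Real.exp (2 * κ * s) / s) atTop atTop := by
      have h3 := tendsto_exp_mul_div_rpow_atTop 1 (2 * κ) (by positivity)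
      simpa using h3
    filter_upwards [h2.eventually_ge_atTop (2 * Real.exp ((y + 1) ^ 2) / c),
      eventually_gt_atTop 0] with s hs hs0
    rw [div_le_div_iff₀ hc hs0] at hs
    linarith
  filter_upwards [h α h0 h1, hL.eventually e3, hL.eventually_ge_atTop (2 * (2 * W + 1)),
    hL.eventually_ge_atTop ((y + 1) / κ), eventually_gt_atTop (1 : ℝ),
    Real.tendsto_log_atTop.eventually_gt_atTop 1] with T hT t3 t1 t2 hT1 hl1 H hH1 hH2 k hk hkB A mA hA
  obtain ⟨-, a2, -⟩ := hT H hH1 hH2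
  have hl0 : 0 < Real.log T := by linarith
  have hll : 0 < Real.log (Real.log T) := Real.log_pos hl1
  have hH0 : 0 ≤ H := by
    refine le_trans ?_ hH1
    positivity
  have hs2 : Real.sqrt (Real.log (Real.log T)) ^ 2 = Real.log (Real.log T) := Real.sq_sqrt hll.le
  have hpow : ∀ x : ℝ, Real.log T ^ x = Real.exp (x * Real.log (Real.log T)) := by
    intro x
    rw [Real.rpow_def_of_pos hl0, mul_comm]
  have hkey := Pool.Agent.R313.trim_core (fun t => ‖riemannZeta (1 / 2 + t * Complex.I)‖)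
    Pool.Agent.H306R2.zeta_line_continuous.norm (fun t => norm_nonneg _) E mE c W B κ K y hc hW hκ hK hy
    T H (Real.sqrt (Real.log (Real.log T))) k hH0 hk hkB t1 t2 t3 (by
      intro V hV
      rw [hs2] at hV
      have b := (a2 V hV).1
      unfold Pool.Agent.Results.MP_112ba8_nt.LocalLawAndMoments.Level
        Pool.Agent.Results.MP_112ba8_nt.LocalLawAndMoments.gauss at b
      rw [hs2]
      exact b) A mA (by
      rw [hs2]
      refine hA.trans (le_of_eq ?_)
      rw [hpow, Real.exp_add, mul_assoc]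
      congr 3
      ring)
  rw [hs2] at hkey
  have e1 : Real.log T ^ k * Real.exp (-(K * Real.sqrt (Real.log (Real.log T)))) =
      Real.exp (k * Real.log (Real.log T) - K * Real.sqrt (Real.log (Real.log T))) := by
    rw [hpow, sub_eq_add_neg, Real.exp_add]
  rw [e1, hpow]
  exact hkey

end Pool.Agent.Results.MP_112ba8_nt.TrimmedMoments
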