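import Pool.Agent.R313.TW.C

set_option autoImplicit false

/-!
# MP_112ba8_nt: Selberg's limit law under the moment measures of every order, near the critical line

Let `δ(T) → 0`, `δ(T) log T → ∞`, `ℓ = log (1 / (2δ))` and `c ≥ 0`. There are sets `E(T) ⊆ [0, T]` of measure
`o(δ^(4+4c) T)`, at every point `t` of which `|ζ(1/2 + δ + it)| > δ^(-2-c)`, such that for all real `k > 0`, coprime
positive integers `m, n` and continuous `F : ℝ → ℝ` with

* `F` bounded and (`k ≤ 2` or `k ≥ 2 + 2c`), or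
* `|F(x)| ≤ A exp (A |x|)` for some `A` and (`k < 2` or `k > 2 + 2c`),

`(2δ)^(k²) (1/T) ∫_{[0,T] \ E(T)} |ζ(1/2 + δ + it)|^(2k) F((log |ζ(1/2 + δ + it)| - k ℓ) / √(ℓ/2)) (n/m)^(it) dt`

converges to `a(k) c(k, m, n)` times the integral of `F` against the standard normal law. Here `a` is the arithmetic
factor of the moment conjecture, and the `c(k, m, n)` are explicit products over the primes dividing `m n`.
So for an integer `k ≥ 3`, under the measure `|ζ(1/2 + δ + it)|^(2k) dt` outside sets of measure `o(δ^(4+4c) T)`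
(with any `c < (k-2)/2`, or with `c = (k-2)/2` for bounded test functions, in which case the measure is `o(δ^(2k) T)`)
the logarithm of `|ζ|` is asymptotically normal with mean `k ℓ` and variance `ℓ/2`, together with all its moments and
exponential moments, and is asymptotically independent of the `p^(it)`.
-/

open Filter Topology MeasureTheory ProbabilityTheory

namespace Pool.Agent.Results.MP_112ba8_nt.WeightedSelberg

/-- the coefficients `Γ(k + j) / (Γ(k) j!)` of `(1 - x)^(-k)` -/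
noncomputable def dd (k : ℝ) (j : ℕ) : ℝ := Real.Gamma (k + j) / (Real.Gamma k * (j.factorial : ℝ))

/-- the arithmetic factor of the moment conjecture for `|ζ|^(2k)` -/
noncomputable def ak (k : ℝ) : ℝ :=
  ∏' p : Nat.Primes, ((1 - 1 / (p : ℝ)) ^ (k ^ 2) * ∑' j : ℕ, dd k j ^ 2 / (p : ℝ) ^ j)

/-- the coefficient `c(k, m, n)`: the product over the primes `p` dividing `m n`, with `c` the exponent of `p` in `m n`,
of `(∑_i d(i) d(i + c) p^(-i-c/2)) / ∑_i d(i)² p^(-i)` -/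
noncomputable def coef (k : ℝ) (m n : ℕ) : ℝ :=
  ∏ p ∈ (m * n).primeFactors, Real.sqrt p ^ ((m * n).factorization p) *
    (∑' i : ℕ, dd k i * dd k (i + (m * n).factorization p) * (1 / (p : ℝ)) ^ (i + (m * n).factorization p)) /
      ∑' i : ℕ, dd k i ^ 2 * (1 / (p : ℝ)) ^ i

theorem result (δ : ℝ → ℝ) (hδ : Tendsto δ atTop (𝓝 0)) (hδL : Tendsto (fun T : ℝ => δ T * Real.log T) atTop atTop)
    (c : ℝ) (hc : 0 ≤ c) :
    ∃ E : ℝ → Set ℝ, (∀ T, MeasurableSet (E T) ∧ ∀ t ∈ E T, 0 ≤ t ∧ t ≤ T ∧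
        (δ T) ^ (-(2 + c)) < ‖riemannZeta (1 / 2 + δ T + Complex.I * (t : ℂ))‖) ∧
      Tendsto (fun T => (volume (E T)).toReal / (T * (δ T) ^ (4 + 4 * c))) atTop (𝓝 0) ∧
      ∀ k : ℝ, 0 < k → 0 < ak k ∧ ∀ m n : ℕ, 0 < m → 0 < n → m.Coprime n → ∀ F : ℝ → ℝ, Continuous F →
        (((k ≤ 2 ∨ 2 + 2 * c ≤ k) ∧ ∃ A : ℝ, ∀ x, |F x| ≤ A) ∨
          ((k < 2 ∨ 2 + 2 * c < k) ∧ ∃ A : ℝ, ∀ x, |F x| ≤ A * Real.exp (A * |x|))) →
        Tendsto (fun T : ℝ => (((2 * δ T) ^ (k ^ 2) * (1 / T) : ℝ) : ℂ) * ∫ t in Set.Icc 0 T \ E T,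
          ((‖riemannZeta (1 / 2 + δ T + Complex.I * (t : ℂ))‖ ^ (2 * k) *
            F ((Real.log ‖riemannZeta (1 / 2 + δ T + Complex.I * (t : ℂ))‖ - k * Real.log (1 / (2 * δ T))) /
              Real.sqrt (Real.log (1 / (2 * δ T)) / 2)) : ℝ) : ℂ) *
            Complex.exp (Complex.I * (t : ℂ) * ((Real.log n - Real.log m : ℝ) : ℂ))) atTop
          (𝓝 ((ak k * coef k m n * ∫ x, F x ∂(gaussianReal 0 1) : ℝ) : ℂ)) := by
  have e1 : ∀ k : ℝ, 0 < k → ∀ m : ℕ, dd k m = Pool.Agent.H306R2.lc k m := by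
    intro k hk m
    unfold dd
    have hG : Real.Gamma k ≠ 0 := (Real.Gamma_pos_of_pos hk).ne'
    induction m with
    | zero =>
      unfold Pool.Agent.H306R2.lc
      simp [hG]
    | succ m ih =>
      have h1 : Pool.Agent.H306R2.lc k (m + 1) = Pool.Agent.H306R2.lc k m * ((k + m) / ((m : ℝ) + 1)) := by
        unfold Pool.Agent.H306R2.lc
        rw [Finset.prod_range_succ]
      have hkm : k + (m : ℝ) ≠ 0 := by positivity
      have h2 : Real.Gamma (k + ((m + 1 : ℕ) : ℝ)) = (k + m) * Real.Gamma (k + m) := by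
        rw [← Real.Gamma_add_one hkm]
        congr 1
        push_cast
        ring
      have hf : (m.factorial : ℝ) ≠ 0 := by positivity
      rw [h1, ← ih, h2, Nat.factorial_succ]
      push_cast
      field_simp
  have e3 : ∀ k : ℝ, 0 < k → ak k = Pool.Agent.H306R2.aF k := by
    intro k hk
    unfold ak Pool.Agent.H306R2.aF
    refine tprod_congr fun p => ?_
    simp_rw [e1 k hk, one_div, inv_pow, div_eq_mul_inv]
  have e5 : ∀ T t : ℝ, Pool.Agent.W184.zn (1 / 2 + δ T) t = ‖riemannZeta (1 / 2 + δ T + Complex.I * (t : ℂ))‖ := by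
    intro T t
    unfold Pool.Agent.W184.zn
    congr 2
    push_cast
    ring
  have e6 : ∀ T t : ℝ, Pool.Agent.Y753.SHR.za (δ T) 0 t = ‖riemannZeta (1 / 2 + δ T + Complex.I * (t : ℂ))‖ := by
    intro T t
    unfold Pool.Agent.Y753.SHR.za
    congr 2
    push_cast
    ring
  obtain ⟨E, hE, hvol, hm⟩ := Pool.Agent.R313.TW.small_grow hδ hδL hc
  refine ⟨E, fun T => ⟨(hE T).1, fun t ht => ⟨((hE T).2.1 ht).1, ((hE T).2.1 ht).2, ?_⟩⟩, hvol, fun k hk => ?_⟩
  · rw [← e6]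
    exact (hE T).2.2 t ht
  rw [e3 _ hk]
  refine ⟨Pool.Agent.H306R2.aF_pos hk, fun m n hm0 hn0 hmn F hF hcase => ?_⟩
  have e4 : coef k m n = Pool.Agent.Y753.NL.Nu k m n := by
    unfold coef Pool.Agent.Y753.NL.Nu Pool.Agent.Y753.NL.nu
    simp_rw [e1 _ hk]
  have e7 : ∀ t : ℝ, Pool.Agent.Y753.NL.tw m n t = Complex.exp (Complex.I * (t : ℂ) * ((Real.log n - Real.log m : ℝ) : ℂ)) := by
    intro t
    unfold Pool.Agent.Y753.NL.tw
    congr 1
    ring
  rw [e4]
  have main := hm k hk m n hm0.ne' hn0.ne' hmn F hF hcase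
  have e10 : ((Pool.Agent.H306R2.aF k * Pool.Agent.Y753.NL.Nu k m n : ℝ) : ℂ) *
        ((∫ x, F x ∂(gaussianReal 0 1) : ℝ) : ℂ) =
      ((Pool.Agent.H306R2.aF k * Pool.Agent.Y753.NL.Nu k m n * ∫ x, F x ∂(gaussianReal 0 1) : ℝ) : ℂ) := by
    push_cast; ring
  rw [e10] at main
  refine main.congr fun T => ?_
  rw [mul_one_div]
  simp_rw [e7]
  congr 1
  refine integral_congr_ae (Eventually.of_forall fun t => ?_)
  simp only
  unfold Pool.Agent.R313.TW.XX Pool.Agent.Y753.NL.ell Pool.Agent.Y753.NL.sg Pool.Agent.Y753.NL.ell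
  rw [e5]

end Pool.Agent.Results.MP_112ba8_nt.WeightedSelberg
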